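import Pool.Agent.Helper67.SQ.Basic

/-!
# Block 4 (part): one step, descending pieces and ascending pieces
-/

namespace Helper67.SQ

open Real Finset

/-- A sequence with increments at most `W` on `[a, b)`. -/
theorem var_le {f : ℕ → ℝ} {W : ℝ} {a b : ℕ} (hab : a ≤ b)
    (h : ∀ k, a ≤ k → k < b → |f k - f (k + 1)| ≤ W) : |f a - f b| ≤ (b - a : ℕ) * W := by
  obtain ⟨m, rfl⟩ := Nat.exists_eq_add_of_le hab
  rw [Nat.add_sub_cancel_left]
  induction m with
  | zero => simp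
  | succ m ih =>
    have h1 := ih (by omega) (fun k hk hk' => h k hk (by omega))
    have h2 := h (a + m) (by omega) (by omega)
    calc |f a - f (a + (m + 1))| = |(f a - f (a + m)) + (f (a + m) - f (a + m + 1))| := by
          rw [← add_assoc]; ring_nf
      _ ≤ |f a - f (a + m)| + |f (a + m) - f (a + m + 1)| := abs_add_le _ _
      _ ≤ m * W + W := add_le_add h1 h2
      _ = ((m + 1 : ℕ) : ℝ) * W := by push_cast; ring

theorem M_pos (X T : V → ℝ) (c : ℝ) (p : V) : 0 < M X T c p :=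
  lt_of_lt_of_le (exp_pos _) (le_max_left _ _)

theorem exp_le_M (X T : V → ℝ) (c : ℝ) (p : V) : exp (-T p) ≤ M X T c p := le_max_left _ _

theorem abs_le_M (X T : V → ℝ) (c : ℝ) (p : V) : |X p - c| ≤ M X T c p := le_max_right _ _

theorem two_mul_le_exp {x : ℝ} : 2 * x ≤ exp (2 * x) := by
  have := add_one_le_exp (2 * x)
  linarith

theorem M_step {Λ : ℝ} {X Y T : V → ℝ} (h : Coarse Λ X Y T) (c : ℝ) {p q : V} (hpq : Adj p q) :
    exp (-(3 * Λ)) * M X T c p ≤ M X T c q := by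
  have hΛ := h.one_le
  have ht := abs_le.1 (h.t_step p q hpq)
  have hx := abs_le.1 (h.x_step p q hpq)
  have hP := exp_pos (-T p)
  have hMq := M_pos X T c q
  have e3 : exp (-(3 * Λ)) = (exp (3 * Λ))⁻¹ := exp_neg _
  rw [e3, inv_mul_le_iff₀ (exp_pos _)]
  by_cases hc : |X p - c| ≤ 2 * Λ * exp (-T p)
  · have h1 : M X T c p ≤ 2 * Λ * exp (-T p) := by
      refine max_le ?_ hc
      nlinarith
    have h2 : exp (-T p) ≤ exp Λ * exp (-T q) := by
      rw [← exp_add]; exact exp_le_exp.2 (by linarith)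
    have h3 : 2 * Λ ≤ exp (2 * Λ) := two_mul_le_exp
    calc M X T c p ≤ 2 * Λ * exp (-T p) := h1
      _ ≤ exp (2 * Λ) * (exp Λ * exp (-T q)) := by gcongr
      _ = exp (3 * Λ) * exp (-T q) := by rw [← mul_assoc, ← exp_add]; ring_nf
      _ ≤ exp (3 * Λ) * M X T c q := by gcongr; exact exp_le_M X T c q
  · push Not at hc
    have h1 : M X T c p ≤ |X p - c| := by
      refine max_le ?_ le_rfl
      nlinarith
    have h2 : |X p - c| ≤ |X q - c| + |X p - X q| := by
      calc |X p - c| = |(X q - c) + (X p - X q)| := by ring_nf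
        _ ≤ _ := abs_add_le _ _
    have h3 := h.x_step p q hpq
    have h4 : |X p - c| ≤ 2 * |X q - c| := by linarith
    have h5 : (2 : ℝ) ≤ exp (3 * Λ) := by
      have := add_one_le_exp (3 * Λ)
      linarith
    calc M X T c p ≤ |X p - c| := h1
      _ ≤ 2 * |X q - c| := h4
      _ ≤ exp (3 * Λ) * M X T c q := by
        have := abs_le_M X T c q
        have h0 := abs_nonneg (X q - c)
        gcongr

theorem exists_large (A ε : ℝ) (hε : 0 < ε) : ∃ r₀ : ℕ, 1 ≤ r₀ ∧ ∀ r : ℕ, r₀ ≤ r →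
    A * r ≤ exp (ε * r) := by
  obtain ⟨r₀, hr₀⟩ := exists_nat_ge (2 * A / ε ^ 2)
  refine ⟨r₀ + 1, by omega, fun r hr => ?_⟩
  have h0 : (0 : ℝ) ≤ r := Nat.cast_nonneg r
  have h1 : 2 * A / ε ^ 2 ≤ r := hr₀.trans (by exact_mod_cast (by omega : r₀ ≤ r))
  rw [div_le_iff₀ (by positivity)] at h1
  have h2 := quadratic_le_exp_of_nonneg (x := ε * r) (by positivity)
  have h3 : A * r ≤ (ε * r) ^ 2 / 2 := by nlinarith
  have h4 : 0 ≤ ε * r := by positivity
  linarith

/-- 4a: a piece on which the height is nearly non-increasing. -/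
theorem down_piece (Λ ε : ℝ) (hΛ : 1 ≤ Λ) (hε : 0 < ε) : ∃ r₀ : ℕ, ∀ X Y T : V → ℝ,
    Coarse Λ X Y T → ∀ (c : ℝ) (p : V) (r i : ℕ), r₀ ≤ r → i < 2 ^ r →
    UpTo (fun b => - T (ray p r i b)) r (ε * r) →
    exp (-(2 * ε * r)) * M X T c p ≤ M X T c (desc p r i) := by
  obtain ⟨r₀, hr1, hr₀⟩ := exists_large (2 * Λ) ε hε
  refine ⟨r₀, fun X Y T h c p r i hr hi hup => ?_⟩
  have hr1' : (1 : ℝ) ≤ r := by exact_mod_cast hr1.trans hr
  have hbig := hr₀ r hr
  have hray0 := ray_zero p r i hi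
  have hrayr := ray_last p r i
  set q := desc p r i with hq
  have hE : (2 : ℝ) ≤ exp (ε * r) := le_trans (by nlinarith) hbig
  have hE1 : (1 : ℝ) ≤ exp (ε * r) := by linarith
  have e3 : exp (-(2 * ε * r)) = (exp (2 * ε * r))⁻¹ := exp_neg _
  have e4 : exp (2 * ε * r) = exp (ε * r) * exp (ε * r) := by rw [← exp_add]; ring_nf
  rw [e3, inv_mul_le_iff₀ (exp_pos _), e4]
  have hMq := M_pos X T c q
  -- heights
  have hT : ∀ b ≤ r, - T (ray p r i b) ≤ - T q + ε * r := by
    intro b hb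
    have := hup b r hb le_rfl
    simpa [hrayr] using this
  -- variation of `x`
  have hvar : |X p - X q| ≤ r * (Λ * (exp (ε * r) * exp (- T q))) := by
    have := var_le (f := fun b => X (ray p r i b)) (W := Λ * (exp (ε * r) * exp (- T q)))
      (Nat.zero_le r) (fun k _ hk => by
        refine (h.x_step _ _ (ray_adj p r i k hk)).trans ?_
        have := hT k hk.le
        rw [← exp_add]
        have h2 : exp (- T (ray p r i k)) ≤ exp (ε * r + - T q) := exp_le_exp.2 (by linarith)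
        have : (0 : ℝ) ≤ Λ := by linarith
        gcongr)
    simpa [hray0, hrayr] using this
  have hT0 : exp (- T p) ≤ exp (ε * r) * exp (- T q) := by
    rw [← exp_add]
    have := hT 0 (Nat.zero_le r)
    rw [hray0] at this
    exact exp_le_exp.2 (by linarith)
  have hMq1 := exp_le_M X T c q
  have hMq2 := abs_le_M X T c q
  have htri : |X p - c| ≤ |X q - c| + |X p - X q| := by
    calc |X p - c| = |(X q - c) + (X p - X q)| := by ring_nf
      _ ≤ _ := abs_add_le _ _
  have hEE : exp (ε * r) * M X T c q ≤ exp (ε * r) * exp (ε * r) * M X T c q := by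
    rw [mul_assoc]
    refine le_mul_of_one_le_left (by positivity) hE1
  refine max_le ?_ ?_
  · calc exp (- T p) ≤ exp (ε * r) * exp (- T q) := hT0
      _ ≤ exp (ε * r) * M X T c q := by gcongr
      _ ≤ _ := hEE
  · set W := r * (Λ * (exp (ε * r) * exp (- T q))) with hW
    by_cases hc : |X p - c| ≤ 2 * W
    · calc |X p - c| ≤ 2 * W := hc
        _ = (2 * Λ * r) * (exp (ε * r) * exp (- T q)) := by rw [hW]; ring
        _ ≤ exp (ε * r) * (exp (ε * r) * exp (- T q)) := by gcongr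
        _ ≤ exp (ε * r) * (exp (ε * r) * M X T c q) := by gcongr
        _ = _ := by ring
    · push Not at hc
      have h4 : |X p - c| ≤ 2 * |X q - c| := by linarith
      calc |X p - c| ≤ 2 * |X q - c| := h4
        _ ≤ exp (ε * r) * M X T c q := by gcongr
        _ ≤ _ := hEE

/-- Rays through a small set of deep vertices are few. -/
theorem card_rays (p : V) (r b₀ : ℕ) (hb₀ : b₀ ≤ r) (S : Finset ℕ) (Q : Finset V)
    (h : ∀ i ∈ S, ∃ b : ℕ, b₀ ≤ b ∧ b ≤ r ∧ ray p r i b ∈ Q) :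
    S.card ≤ Q.card * 2 ^ (r - b₀) := by
  classical
  choose! β hβ1 hβ2 hβ3 using h
  rw [mul_comm]
  refine card_le_mul_card_image_of_maps_to (f := fun i => ray p r i (β i)) (s := S) (t := Q)
    (fun i hi => hβ3 i hi) (2 ^ (r - b₀)) ?_
  intro q _
  rcases (S.filter fun i => ray p r i (β i) = q).eq_empty_or_nonempty with he | ⟨i₀, hi₀⟩
  · rw [he]; simp
  · rw [mem_filter] at hi₀
    obtain ⟨hi₀, hq₀⟩ := hi₀
    have key : ∀ i ∈ S, ray p r i (β i) = q → β i = β i₀ ∧
        i / 2 ^ (r - β i₀) = i₀ / 2 ^ (r - β i₀) := by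
      intro i hi hq
      rw [← hq₀] at hq
      unfold ray desc at hq
      rw [Prod.mk.injEq] at hq
      obtain ⟨h1, h2⟩ := hq
      have hb : β i = β i₀ := by
        have : (β i : ℤ) = β i₀ := by linarith
        exact_mod_cast this
      rw [hb] at h2
      refine ⟨hb, ?_⟩
      have : ((i / 2 ^ (r - β i₀) : ℕ) : ℤ) = ((i₀ / 2 ^ (r - β i₀) : ℕ) : ℤ) := by linarith
      exact_mod_cast this
    set m := r - β i₀ with hm
    have hmle : m ≤ r - b₀ := by have := hβ1 i₀ hi₀; omega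
    calc (S.filter fun i => ray p r i (β i) = q).card
        ≤ (Finset.Ico (2 ^ m * (i₀ / 2 ^ m)) (2 ^ m * (i₀ / 2 ^ m) + 2 ^ m)).card := by
          apply card_le_card
          intro i hi
          rw [mem_filter] at hi
          have h1 := (key i hi.1 hi.2).2
          have h2 := Nat.div_add_mod i (2 ^ m)
          have h3 := Nat.mod_lt i (show 0 < 2 ^ m by positivity)
          rw [h1] at h2
          rw [Finset.mem_Ico]
          constructor <;> omega
      _ = 2 ^ m := by simp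
      _ ≤ 2 ^ (r - b₀) := Nat.pow_le_pow_right (by norm_num) hmle

/-- A ray which goes up and approaches `x = c` passes near a definite point. -/
theorem up_ray {Λ ε η : ℝ} (hε : 0 < ε) (hεη : 4 * ε ≤ η) {X Y T : V → ℝ}
    (h : Coarse Λ X Y T) (c : ℝ) (p : V) (r i : ℕ) (hr : 1 ≤ r)
    (hbig : 3 * Λ * r ≤ exp (ε * r)) (hi : i < 2 ^ r)
    (hup : UpTo (fun b => T (ray p r i b)) r (ε * r))
    (hM : M X T c (desc p r i) < exp (-(η * r)) * M X T c p) :
    ∃ b : ℕ, b ≤ r ∧ η * r / 2 ≤ Λ * b ∧ T p + η * r / 2 ≤ T (ray p r i b) ∧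
      T (ray p r i b) ≤ T p + η * r / 2 + Λ ∧
      |X (ray p r i b) - c| ≤ exp (-(T p + η * r / 2) + 2 * (ε * r)) ∧
      |Y p - Y (ray p r i b)| ≤ r * (Λ * exp (T p + η * r / 2)) := by
  have hΛ := h.one_le
  have hΛ0 := h.pos
  have hη : 0 < η := by linarith
  have hr1 : (1 : ℝ) ≤ r := by exact_mod_cast hr
  have hray0 := ray_zero p r i hi
  have hrayr := ray_last p r i
  set q := desc p r i with hq
  set E := exp (ε * r) with hEdef
  have hΛr : 1 ≤ Λ * r := by nlinarith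
  have hE : (3 : ℝ) ≤ E := le_trans (by nlinarith) hbig
  have hE0 : 0 < E := by linarith
  have hηE : E ≤ exp (η * r) := exp_le_exp.2 (by nlinarith)
  have hT : ∀ b b', b ≤ b' → b' ≤ r → T (ray p r i b) ≤ T (ray p r i b') + ε * r := hup
  have hMp := M_pos X T c p
  -- variation
  set W := r * (Λ * (E * exp (- T p))) with hW
  have hvar : |X p - X q| ≤ W := by
    have := var_le (f := fun b => X (ray p r i b)) (W := Λ * (E * exp (- T p)))
      (Nat.zero_le r) (fun k _ hk => by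
        refine (h.x_step _ _ (ray_adj p r i k hk)).trans ?_
        have h1 := hT 0 k (Nat.zero_le k) hk.le
        rw [hray0] at h1
        rw [hEdef, ← exp_add]
        have h2 : exp (- T (ray p r i k)) ≤ exp (ε * r + - T p) := exp_le_exp.2 (by linarith)
        gcongr)
    simpa [hray0, hrayr] using this
  have hMq2 := abs_le_M X T c q
  have hMW : M X T c p ≤ 2 * W := by
    by_contra hcon
    push Not at hcon
    have hexpW : exp (- T p) ≤ 2 * W := by
      have e : 2 * W = (2 * (Λ * r) * E) * exp (- T p) := by rw [hW]; ring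
      rw [e]
      refine le_mul_of_one_le_left (exp_pos _).le ?_
      nlinarith
    have hXc : 2 * W < |X p - c| := by
      by_contra hcon2
      push Not at hcon2
      have : M X T c p ≤ 2 * W := max_le hexpW hcon2
      linarith
    have hMX : M X T c p ≤ |X p - c| := max_le (by linarith) le_rfl
    have htri : |X p - c| ≤ |X q - c| + |X p - X q| := by
      calc |X p - c| = |(X q - c) + (X p - X q)| := by ring_nf
        _ ≤ _ := abs_add_le _ _
    have h4 : M X T c p ≤ 2 * M X T c q := by linarith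
    have h5 : exp (-(η * r)) * (2 : ℝ) < 1 := by
      rw [exp_neg, inv_mul_lt_iff₀ (exp_pos _)]
      linarith
    have h6 : exp (-(η * r)) * M X T c p ≤ exp (-(η * r)) * (2 * M X T c q) := by gcongr
    have hMq := M_pos X T c q
    nlinarith
  have hMq3 : M X T c q < exp (-(T p + η * r / 2)) := by
    calc M X T c q < exp (-(η * r)) * M X T c p := hM
      _ ≤ exp (-(η * r)) * (2 * W) := by gcongr
      _ = exp (-(η * r)) * ((2 * Λ * r) * E * exp (- T p)) := by rw [hW]; ring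
      _ ≤ exp (-(η * r)) * (E * E * exp (- T p)) := by
        have : 2 * Λ * r ≤ E := by linarith
        gcongr
      _ = exp (-(η * r) + (ε * r + ε * r + - T p)) := by
        rw [hEdef, ← exp_add, ← exp_add, ← exp_add]
      _ ≤ exp (-(T p + η * r / 2)) := by
        apply exp_le_exp.2
        nlinarith
  have hTq : T p + η * r / 2 < T q := by
    have := (exp_le_M X T c q).trans_lt hMq3
    rw [exp_lt_exp] at this
    linarith
  have hXq : |X q - c| ≤ exp (-(T p + η * r / 2)) := hMq2.trans hMq3.le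
  set τ := T p + η * r / 2 with hτ
  have hηr : 0 < η * r / 2 := by positivity
  -- first time above `τ`
  have hex : ∃ b, τ ≤ T (ray p r i b) := ⟨r, by rw [hrayr]; exact hTq.le⟩
  classical
  obtain ⟨b, hb1, hb2⟩ : ∃ b, τ ≤ T (ray p r i b) ∧ ∀ k < b, T (ray p r i k) < τ :=
    ⟨Nat.find hex, Nat.find_spec hex, fun k hk => not_le.1 (Nat.find_min hex hk)⟩
  have hbr : b ≤ r := by
    by_contra hcon
    push Not at hcon
    have := hb2 r hcon
    rw [hrayr] at this
    linarith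
  have hb0 : b ≠ 0 := by
    rintro rfl
    rw [hray0] at hb1
    linarith
  refine ⟨b, hbr, ?_, hb1, ?_, ?_, ?_⟩
  · have h1 := h.near_T (ray_near p r i 0 b (Nat.zero_le b) hbr)
    rw [hray0, Nat.sub_zero] at h1
    have := (abs_le.1 h1).1
    linarith
  · obtain ⟨k, rfl⟩ : ∃ k, b = k + 1 := ⟨b - 1, by omega⟩
    have h1 := hb2 k (by omega)
    have h2 := (abs_le.1 (h.t_step _ _ (ray_adj p r i k (by omega)))).1
    linarith
  · have h1 : |X (ray p r i b) - X q| ≤ (r - b : ℕ) * (Λ * (E * exp (-τ))) := by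
      have := var_le (f := fun b => X (ray p r i b)) (W := Λ * (E * exp (-τ)))
        hbr (fun k hk1 hk => by
          refine (h.x_step _ _ (ray_adj p r i k hk)).trans ?_
          have h1 := hT b k hk1 hk.le
          rw [hEdef, ← exp_add]
          have h2 : exp (- T (ray p r i k)) ≤ exp (ε * r + -τ) := exp_le_exp.2 (by linarith)
          gcongr)
      simpa [hrayr] using this
    have h2 : ((r - b : ℕ) : ℝ) ≤ r := by exact_mod_cast Nat.sub_le r b
    have hx0 := exp_pos (-τ)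
    calc |X (ray p r i b) - c| = |(X q - c) + (X (ray p r i b) - X q)| := by ring_nf
      _ ≤ |X q - c| + |X (ray p r i b) - X q| := abs_add_le _ _
      _ ≤ exp (-τ) + (r - b : ℕ) * (Λ * (E * exp (-τ))) := add_le_add hXq h1
      _ ≤ exp (-τ) + r * (Λ * (E * exp (-τ))) := by gcongr
      _ = exp (-τ) * (1 + Λ * r * E) := by ring
      _ ≤ exp (-τ) * (E * E) := by
        have : 1 + Λ * r * E ≤ E * E := by nlinarith
        gcongr
      _ = exp (-τ + 2 * (ε * r)) := by
        rw [hEdef, ← exp_add, ← exp_add]; ring_nf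
  · have := var_le (f := fun b => Y (ray p r i b)) (W := Λ * exp τ)
        (Nat.zero_le b) (fun k _ hk => by
          refine (h.y_step _ _ (ray_adj p r i k (by omega))).trans ?_
          have h1 := hb2 k hk
          have h2 : exp (T (ray p r i k)) ≤ exp τ := exp_le_exp.2 h1.le
          gcongr)
    simp only [hray0, Nat.sub_zero] at this
    refine this.trans ?_
    gcongr

/-- 4b: few rays go up while approaching `x = c`. -/
theorem up_piece (Λ η : ℝ) (hΛ : 1 ≤ Λ) (hη : 0 < η) : ∃ ε : ℝ, 0 < ε ∧ ∀ κ : ℝ, 0 < κ →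
    ∃ r₀ : ℕ, ∀ X Y T : V → ℝ, Coarse Λ X Y T → ∀ (c : ℝ) (p : V) (r : ℕ), r₀ ≤ r →
    ∀ S : Finset ℕ, (∀ i ∈ S, i < 2 ^ r ∧ UpTo (fun b => T (ray p r i b)) r (ε * r) ∧
      M X T c (desc p r i) < exp (-(η * r)) * M X T c p) → (S.card : ℝ) ≤ κ * 2 ^ r := by
  have hΛ0 : 0 < Λ := by linarith
  refine ⟨η / (100 * Λ ^ 2), by positivity, fun κ hκ => ?_⟩
  set ε := η / (100 * Λ ^ 2) with hε
  have hε0 : 0 < ε := by positivity
  have hεΛ : ε * (100 * Λ ^ 2) = η := by rw [hε]; field_simp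
  obtain ⟨K, hK⟩ := exists_pow_lt_of_lt_one hκ (show (1 / 2 : ℝ) < 1 by norm_num)
  obtain ⟨r₁, hr11, hr₁⟩ := exists_large (3 * Λ) ε hε0
  obtain ⟨r₂, hr₂⟩ := exists_nat_ge ((3 * (Λ * (2 * Λ + 4)) + 3 + K) / (30 * ε * Λ))
  refine ⟨r₁ + r₂, fun X Y T h c p r hr S hS => ?_⟩
  have hr1 : 1 ≤ r := by omega
  have hbig := hr₁ r (by omega)
  have hr1' : (1 : ℝ) ≤ r := by exact_mod_cast hr1
  have hr2' : (3 * (Λ * (2 * Λ + 4)) + 3 + K) ≤ (r : ℝ) * (30 * ε * Λ) := by
    rw [← div_le_iff₀ (by positivity)]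
    exact hr₂.trans (by exact_mod_cast (by omega : r₂ ≤ r))
  have hεη : 4 * ε ≤ η := by
    have h1 : 1 ≤ Λ ^ 2 := one_le_pow₀ hΛ
    nlinarith
  rcases S.eq_empty_or_nonempty with rfl | ⟨i₀, hi₀⟩
  · simp; positivity
  set τ := T p + η * r / 2 with hτ
  have key : ∀ i ∈ S, ∃ b : ℕ, b ≤ r ∧ η * r / 2 ≤ Λ * b ∧ τ ≤ T (ray p r i b) ∧
      T (ray p r i b) ≤ τ + Λ ∧
      |X (ray p r i b) - c| ≤ exp (-τ + 2 * (ε * r)) ∧
      |Y p - Y (ray p r i b)| ≤ r * (Λ * exp τ) := fun i hi =>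
    up_ray hε0 hεη h c p r i hr1 hbig (hS i hi).1 (hS i hi).2.1 (hS i hi).2.2
  obtain ⟨b₁, hb₁r, hb₁, hb₁T, hb₁T', hb₁X, hb₁Y⟩ := key i₀ hi₀
  set D := ⌈Λ * (6 * (ε * r) + 2 * Λ + 4)⌉₊ with hD
  have hDle : (D : ℝ) ≤ Λ * (6 * (ε * r) + 2 * Λ + 4) + 1 :=
    (Nat.ceil_lt_add_one (by positivity)).le
  obtain ⟨Q, hQ1, hQ2⟩ := near_ball D (ray p r i₀ b₁)
  set b₀ := ⌈η * r / (2 * Λ)⌉₊ with hb₀
  have hb₀le : ∀ b : ℕ, η * r / 2 ≤ Λ * b → b₀ ≤ b := by
    intro b hb
    rw [hb₀]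
    apply Nat.ceil_le.2
    rw [div_le_iff₀ (by positivity)]
    nlinarith
  have hb₀ge : η * r / (2 * Λ) ≤ b₀ := Nat.le_ceil _
  have hcard := card_rays p r b₀ ((hb₀le b₁ hb₁).trans hb₁r) S Q (by
    intro i hi
    obtain ⟨b, hbr, hb, hbT, hbT', hbX, hbY⟩ := key i hi
    refine ⟨b, hb₀le b hb, hbr, hQ2 _ ?_⟩
    apply h.lower _ _ (τ - 2 * (ε * r)) (τ + ε * r) D
    refine le_trans ?_ (Nat.le_ceil _)
    have hεr : 0 ≤ ε * r := by positivity
    have t1 : |T (ray p r i₀ b₁) - (τ - 2 * (ε * r))| ≤ Λ + 2 * (ε * r) := by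
      rw [abs_le]; constructor <;> linarith
    have t2 : exp (τ - 2 * (ε * r)) * |X (ray p r i₀ b₁) - X (ray p r i b)| ≤ 2 := by
      have h1 : |X (ray p r i₀ b₁) - X (ray p r i b)| ≤ 2 * exp (-τ + 2 * (ε * r)) := by
        calc |X (ray p r i₀ b₁) - X (ray p r i b)| =
              |(X (ray p r i₀ b₁) - c) - (X (ray p r i b) - c)| := by ring_nf
          _ ≤ |X (ray p r i₀ b₁) - c| + |X (ray p r i b) - c| := abs_sub _ _
          _ ≤ _ := by linarith
      calc exp (τ - 2 * (ε * r)) * |X (ray p r i₀ b₁) - X (ray p r i b)|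
          ≤ exp (τ - 2 * (ε * r)) * (2 * exp (-τ + 2 * (ε * r))) := by gcongr
        _ = 2 * (exp (τ - 2 * (ε * r)) * exp (-τ + 2 * (ε * r))) := by ring
        _ = 2 * exp ((τ - 2 * (ε * r)) + (-τ + 2 * (ε * r))) := by rw [← exp_add]
        _ = 2 := by
          rw [show (τ - 2 * (ε * r)) + (-τ + 2 * (ε * r)) = 0 by ring, exp_zero]; ring
    have t3 : |τ + ε * r - (τ - 2 * (ε * r))| ≤ 3 * (ε * r) := by
      rw [show τ + ε * r - (τ - 2 * (ε * r)) = 3 * (ε * r) by ring, abs_of_nonneg (by positivity)]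
    have t4 : exp (-(τ + ε * r)) * |Y (ray p r i₀ b₁) - Y (ray p r i b)| ≤ 1 := by
      have h1 : |Y (ray p r i₀ b₁) - Y (ray p r i b)| ≤ 2 * Λ * r * exp τ := by
        calc |Y (ray p r i₀ b₁) - Y (ray p r i b)| =
              |(Y p - Y (ray p r i b)) - (Y p - Y (ray p r i₀ b₁))| := by ring_nf
          _ ≤ |Y p - Y (ray p r i b)| + |Y p - Y (ray p r i₀ b₁)| := abs_sub _ _
          _ ≤ _ := by linarith
      calc exp (-(τ + ε * r)) * |Y (ray p r i₀ b₁) - Y (ray p r i b)|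
          ≤ exp (-(τ + ε * r)) * (exp (ε * r) * exp τ) := by
            have h2 : 2 * Λ * r ≤ exp (ε * r) := by nlinarith
            have h3 : 2 * Λ * r * exp τ ≤ exp (ε * r) * exp τ := by gcongr
            gcongr
            exact h1.trans h3
        _ = exp (-(τ + ε * r) + (ε * r + τ)) := by rw [← exp_add, ← exp_add]
        _ = 1 := by rw [show -(τ + ε * r) + (ε * r + τ) = 0 by ring, exp_zero]
    have t5 : |τ + ε * r - T (ray p r i b)| ≤ ε * r + Λ := by
      rw [abs_le]; constructor <;> linarith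
    refine mul_le_mul_of_nonneg_left ?_ hΛ0.le
    linarith)
  -- arithmetic
  have hfin : 3 * D + K ≤ b₀ := by
    have h1 : (3 * D + K : ℝ) ≤ b₀ := by
      have e1 : η * r / (2 * Λ) = 50 * ε * Λ * r := by
        rw [← hεΛ]; field_simp; ring
      nlinarith
    exact_mod_cast h1
  have hb₀r : b₀ ≤ r := (hb₀le b₁ hb₁).trans hb₁r
  have hnat : S.card * 2 ^ K ≤ 2 ^ r := by
    calc S.card * 2 ^ K ≤ Q.card * 2 ^ (r - b₀) * 2 ^ K := Nat.mul_le_mul_right _ hcard
      _ ≤ 8 ^ D * 2 ^ (r - b₀) * 2 ^ K := by gcongr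
      _ = 2 ^ (3 * D + (r - b₀) + K) := by
        rw [show (8 : ℕ) = 2 ^ 3 by norm_num, ← pow_mul, ← pow_add, ← pow_add]
      _ ≤ 2 ^ r := Nat.pow_le_pow_right (by norm_num) (by omega)
  have hreal : (S.card : ℝ) * 2 ^ K ≤ 2 ^ r := by exact_mod_cast hnat
  have h2K : (0 : ℝ) < 2 ^ K := by positivity
  calc (S.card : ℝ) = (S.card * 2 ^ K) * (1 / 2) ^ K := by
        rw [mul_assoc, ← mul_pow]; norm_num
    _ ≤ 2 ^ r * (1 / 2) ^ K := by gcongr
    _ ≤ 2 ^ r * κ := by gcongr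
    _ = κ * 2 ^ r := by ring

end Helper67.SQ
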